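import Pool.Agent.W559.Wr.Stm

/-!
# Project Wr, part GROUP: grouping of linearly disjoint factors
-/

set_option autoImplicit false

open TensorProduct

universe u v w

namespace Pool.Agent.W327.Wr

open Pool.Agent.W559.Wr

section

variable {k M : Type u} [Field k] [Field M] [Algebra k M]

lemma mulM_tprod {J : Type} [Fintype J] {K : J → Type u} [∀ j, Field (K j)]
    [∀ j, Algebra k (K j)] (e : ∀ j, K j →ₐ[k] M) (x : ∀ j, K j) :
    mulM e (PiTensorProduct.tprod k x) = ∏ j, e j (x j) := by
  unfold mulM
  rw [PiTensorProduct.lift.tprod]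
  rfl

/-- the multiplication map as a homomorphism of algebras -/
noncomputable def mulA {J : Type} [Fintype J] {K : J → Type u} [∀ j, Field (K j)]
    [∀ j, Algebra k (K j)] (e : ∀ j, K j →ₐ[k] M) : (⨂[k] j, K j) →ₐ[k] M :=
  PiTensorProduct.liftAlgHom ((MultilinearMap.mkPiAlgebra k J M).compLinearMap
    fun j => (e j).toLinearMap) (by
      change ∏ j, e j 1 = 1
      simp) (by
      intro x y
      change ∏ j, e j (x j * y j) = (∏ j, e j (x j)) * ∏ j, e j (y j)
      rw [← Finset.prod_mul_distrib]
      simp)

lemma mulA_apply {J : Type} [Fintype J] {K : J → Type u} [∀ j, Field (K j)]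
    [∀ j, Algebra k (K j)] (e : ∀ j, K j →ₐ[k] M) (z : ⨂[k] j, K j) :
    mulA e z = mulM e z := rfl

lemma mulA_tprod {J : Type} [Fintype J] {K : J → Type u} [∀ j, Field (K j)]
    [∀ j, Algebra k (K j)] (e : ∀ j, K j →ₐ[k] M) (x : ∀ j, K j) :
    mulA e (PiTensorProduct.tprod k x) = ∏ j, e j (x j) := by
  rw [mulA_apply, mulM_tprod]

end

/-- a linear map is injective if it maps a basis to a linearly independent family -/
lemma inj_of_basis {k V W κ : Type*} [Field k] [AddCommGroup V] [Module k V] [AddCommGroup W]
    [Module k W] (B : Module.Basis κ k V) (Ψ : V →ₗ[k] W)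
    (h : LinearIndependent k fun c => Ψ (B c)) : Function.Injective Ψ := by
  rw [injective_iff_map_eq_zero]
  intro z hz
  rw [← B.linearCombination_repr z, LinearMap.map_finsupp_linearCombination] at hz
  have h2 : B.repr z = 0 := by
    have h3 := (linearIndependent_iff.1 h) (B.repr z)
    exact h3 hz
  rw [← B.linearCombination_repr z, h2, map_zero]

theorem group : GroupStm.{u} := by
  classical
  intro k M _ _ _ I J _ _ K _ _ e he f
  -- the tensor product over a fibre
  let m : ∀ j : J, (⨂[k] (i : {i // f i = j}), K i.1) →ₐ[k] M :=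
    fun j => mulA (fun i : {i // f i = j} => e i.1)
  let L : J → IntermediateField k M := fun j => ⨆ i : {i // f i = j}, (e i.1).fieldRange
  have hm : ∀ j t, m j t ∈ (L j).toSubalgebra := by
    intro j t
    induction t using PiTensorProduct.induction_on with
    | smul_tprod r x =>
      rw [map_smul]
      refine (L j).toSubalgebra.smul_mem ?_ r
      change mulA _ _ ∈ _
      rw [mulA_tprod]
      refine (L j).toSubalgebra.prod_mem fun i _ => ?_
      have h1 : (e i.1).fieldRange ≤ L j :=
        le_iSup (fun i : {i // f i = j} => (e i.1).fieldRange) i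
      exact h1 ⟨x i, rfl⟩
    | add x y hx hy =>
      rw [map_add]
      exact add_mem hx hy
  let μ : ∀ j : J, (⨂[k] (i : {i // f i = j}), K i.1) →ₐ[k] (L j) :=
    fun j => (m j).codRestrict (L j).toSubalgebra (hm j)
  have hμ : ∀ j t, ((μ j t : L j) : M) = m j t := fun j t => rfl
  -- fractions
  have hfrac : ∀ j (x : L j), ∃ t t' : (⨂[k] (i : {i // f i = j}), K i.1), m j t' ≠ 0 ∧
      (x : M) * m j t' = m j t := by
    intro j x
    have hx : (x : M) ∈ ⨆ i : {i // f i = j}, (e i.1).fieldRange := x.2
    rw [IntermediateField.iSup_eq_adjoin, IntermediateField.mem_adjoin_iff_div] at hx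
    have hle : Algebra.adjoin k (⋃ i : {i // f i = j}, ((e i.1).fieldRange : Set M)) ≤
        (m j).range := by
      refine Algebra.adjoin_le ?_
      refine Set.iUnion_subset fun i => ?_
      rintro _ ⟨y, rfl⟩
      refine ⟨PiTensorProduct.tprod k (Function.update 1 i y), ?_⟩
      change mulA _ _ = _
      rw [mulA_tprod, Finset.prod_eq_single i]
      · rw [Function.update_self]
        rfl
      · intro i' _ hi'
        rw [Function.update_of_ne hi', Pi.one_apply, map_one]
      · intro h
        exact absurd (Finset.mem_univ _) h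
    obtain ⟨r, hr, s, hs, hrs⟩ := hx
    obtain ⟨t, ht⟩ := hle hr
    obtain ⟨t', ht'⟩ := hle hs
    have ht1 : m j t = r := ht
    have ht2 : m j t' = s := ht'
    by_cases hs0 : s = 0
    · refine ⟨0, 1, by rw [map_one]; exact one_ne_zero, ?_⟩
      rw [hrs, hs0, div_zero, zero_mul, map_zero]
    · refine ⟨t, t', by rw [ht2]; exact hs0, ?_⟩
      rw [ht1, ht2, hrs, div_mul_cancel₀ _ hs0]
  -- the map of the tensor products
  let Φ : (⨂[k] j, ⨂[k] (i : {i // f i = j}), K i.1) →ₐ[k] (⨂[k] j, L j) :=
    PiTensorProduct.liftAlgHom ((PiTensorProduct.tprod k).compLinearMap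
      fun j => (μ j).toLinearMap) (by
        change PiTensorProduct.tprod k (fun j => μ j 1) = 1
        simp only [map_one]
        rfl) (by
        intro x y
        change PiTensorProduct.tprod k (fun j => μ j (x j * y j)) =
          PiTensorProduct.tprod k (fun j => μ j (x j)) *
            PiTensorProduct.tprod k (fun j => μ j (y j))
        rw [PiTensorProduct.tprod_mul_tprod]
        simp only [map_mul]
        rfl)
  have hΦ : ∀ x : ∀ j, (⨂[k] (i : {i // f i = j}), K i.1),
      Φ (PiTensorProduct.tprod k x) = PiTensorProduct.tprod k fun j => μ j (x j) := by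
    intro x
    change PiTensorProduct.lift ((PiTensorProduct.tprod k).compLinearMap
      fun j => (μ j).toLinearMap) (PiTensorProduct.tprod k x) = _
    rw [PiTensorProduct.lift.tprod]
    rfl
  -- common denominators
  have hden : ∀ z : (⨂[k] j, L j), ∃ s : ∀ j, (⨂[k] (i : {i // f i = j}), K i.1),
      (∀ j, m j (s j) ≠ 0) ∧ ∃ w, (PiTensorProduct.tprod k fun j => μ j (s j)) * z = Φ w := by
    intro z
    induction z using PiTensorProduct.induction_on with
    | smul_tprod r x =>
      choose t t' h1 h2 using fun j => hfrac j (x j)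
      refine ⟨t', h1, r • PiTensorProduct.tprod k t, ?_⟩
      have h3 := PiTensorProduct.smul_tprod_mul_smul_tprod (R := k) 1 r (fun j => μ j (t' j)) x
      rw [one_smul, one_mul] at h3
      rw [map_smul, hΦ]
      refine h3.trans ?_
      congr 2
      funext j
      apply Subtype.ext
      change m j (t' j) * (x j : M) = m j (t j)
      rw [mul_comm, h2]
    | add x y hx hy =>
      obtain ⟨s1, h1, w1, e1⟩ := hx
      obtain ⟨s2, h2, w2, e2⟩ := hy
      refine ⟨s1 * s2, fun j => ?_, PiTensorProduct.tprod k s2 * w1 +
        PiTensorProduct.tprod k s1 * w2, ?_⟩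
      · rw [Pi.mul_apply, map_mul]
        exact mul_ne_zero (h1 j) (h2 j)
      · have h3 : (PiTensorProduct.tprod k fun j => μ j ((s1 * s2) j)) =
            (PiTensorProduct.tprod k fun j => μ j (s1 j)) *
              (PiTensorProduct.tprod k fun j => μ j (s2 j)) := by
          rw [PiTensorProduct.tprod_mul_tprod]
          congr 1
          funext j
          rw [Pi.mul_apply, map_mul]
          rfl
        rw [map_add, map_mul, map_mul, hΦ, hΦ, ← e1, ← e2, h3]
        ring
  -- the composite is injective
  have hΨ : Function.Injective ((mulA fun j => (L j).val).comp Φ) := by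
    let b : ∀ i, Module.Basis (Module.Basis.ofVectorSpaceIndex k (K i)) k (K i) :=
      fun i => Module.Basis.ofVectorSpace k (K i)
    let B := Basis.piTensorProduct
      (fun j : J => Basis.piTensorProduct (fun i : {i // f i = j} => b i.1))
    let B' := Basis.piTensorProduct b
    have hB' : LinearIndependent k fun c => mulM e (B' c) :=
      B'.linearIndependent.map' (mulM e) (LinearMap.ker_eq_bot.2 he)
    let ρ : (∀ j, ∀ i : {i // f i = j}, Module.Basis.ofVectorSpaceIndex k (K i.1)) →
        (∀ i, Module.Basis.ofVectorSpaceIndex k (K i)) := fun c i => c (f i) ⟨i, rfl⟩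
    have hρ : Function.Injective ρ := by
      intro c c' h
      funext j i
      obtain ⟨i, rfl⟩ := i
      exact congrFun h i
    refine inj_of_basis B ((mulA fun j => (L j).val).comp Φ).toLinearMap ?_
    have h2 := hB'.comp ρ hρ
    suffices h6 : (fun c => ((mulA fun j => (L j).val).comp Φ).toLinearMap (B c)) =
        (fun c => mulM e (B' c)) ∘ ρ by
      rw [h6]
      exact h2
    funext c
    change mulA _ (Φ (B c)) = mulM e (B' (ρ c))
    rw [Basis.piTensorProduct_apply, Basis.piTensorProduct_apply, hΦ, mulA_tprod,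
      mulM_tprod, ← Fintype.prod_fiberwise f]
    refine Finset.prod_congr rfl fun j _ => ?_
    rw [Basis.piTensorProduct_apply]
    have h5 : (L j).val (μ j (PiTensorProduct.tprod k fun i : {i // f i = j} => b i.1 (c j i))) =
        mulA (fun i : {i // f i = j} => e i.1)
          (PiTensorProduct.tprod k fun i : {i // f i = j} => b i.1 (c j i)) := rfl
    rw [h5, mulA_tprod]
    refine Finset.prod_congr rfl fun i _ => ?_
    obtain ⟨i, rfl⟩ := i
    rfl
  change Function.Injective (mulM fun j => (L j).val)
  rw [injective_iff_map_eq_zero]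
  intro z hz
  obtain ⟨s, hs, w, hw⟩ := hden z
  have hw0 : w = 0 := by
    apply hΨ
    rw [map_zero]
    change mulA _ (Φ w) = 0
    rw [← hw, map_mul, mulA_apply _ z, hz, mul_zero]
  rw [hw0, map_zero] at hw
  have h1 : (PiTensorProduct.tprod k fun j => (μ j (s j))⁻¹) *
      ((PiTensorProduct.tprod k fun j => μ j (s j)) * z) = z := by
    rw [← mul_assoc, PiTensorProduct.tprod_mul_tprod]
    have h2 : ((fun j => (μ j (s j))⁻¹) * fun j => μ j (s j)) = 1 := by
      funext j
      rw [Pi.mul_apply, Pi.one_apply]
      refine inv_mul_cancel₀ ?_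
      intro h3
      exact hs j (congrArg (fun y : L j => (y : M)) h3)
    rw [h2]
    exact one_mul z
  rw [← h1, hw, mul_zero]

end Pool.Agent.W327.Wr
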